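import Pool.Agent.N44.FA.Stm

/-!
# Project FA, part ONTO: each coordinate is onto
-/

set_option autoImplicit false

namespace Pool.Agent.N618.FA

open Pool.Agent.N44.NS Pool.Agent.N44.FA

section

variable {O : Type} [DecidableEq O]

theorem pm_ext {f g : O → O} {P Q : O → Bool} (h1 : ∀ b, P b = Q b)
    (h2 : ∀ b, P b = true → f b = g b) : pm f P = pm g Q := by
  ext a b
  simp only [pm, Matrix.of_apply]
  by_cases hP : P b = true
  · rw [h2 b hP, h1 b]
  · have hQ : ¬ Q b = true := by rwa [← h1 b]
    rw [if_neg (fun h => hP h.1), if_neg (fun h => hQ h.1)]

theorem pm_mul [Fintype O] (f g : O → O) (P Q : O → Bool) :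
    pm f P * pm g Q = pm (f ∘ g) (fun b => Q b && P (g b)) := by
  ext a b
  rw [Matrix.mul_apply, Finset.sum_eq_single (g b)]
  · simp only [pm, Matrix.of_apply, Function.comp_apply, Bool.and_eq_true]
    by_cases h1 : P (g b) = true <;> by_cases h2 : Q b = true <;> simp [h1, h2]
  · intro c _ hc
    simp only [pm, Matrix.of_apply]
    rw [if_neg (c := Q b = true ∧ c = g b) (fun h => hc h.2), mul_zero]
  · intro h
    exact absurd (Finset.mem_univ _) h

end

variable (k : ℕ)

theorem sh_xx (j : ZMod (k + 1)) : sh k * xx k j * sh' k = xx k (j + 1) := by
  unfold sh xx sh'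
  rw [pm_mul, pm_mul]
  apply pm_ext
  · intro b
    simp
  · intro b _
    funext i
    simp only [Function.comp_apply, Function.update_apply]
    by_cases h : i = j + 1
    · subst h
      simp
    · have h' : i - 1 ≠ j := fun h' => h (by rw [← h']; ring)
      simp [h, h']

theorem sh_yy (j : ZMod (k + 1)) : sh k * yy k j * sh' k = yy k (j + 1) := by
  unfold sh yy sh'
  rw [pm_mul, pm_mul]
  apply pm_ext
  · intro b
    simp
  · intro b _
    funext i
    simp only [Function.comp_apply, Function.update_apply]
    by_cases h : i = j + 1
    · subst h
      simp
    · have h' : i - 1 ≠ j := fun h' => h (by rw [← h']; ring)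
      simp [h, h']

theorem xx_yy (j : ZMod (k + 1)) : xx k j * yy k j = pm id (fun b => decide (b j = 0)) := by
  unfold xx yy
  rw [pm_mul]
  apply pm_ext
  · intro b
    simp
  · intro b hb
    simp only [Bool.and_eq_true, decide_eq_true_eq, Function.update_self] at hb
    funext i
    simp only [Function.comp_apply, Function.update_apply, id]
    by_cases h : i = j
    · subst h
      simp [hb.1]
    · simp [h]

theorem yy_xx (j : ZMod (k + 1)) : yy k j * xx k j = pm id (fun b => decide (b j = 1)) := by
  unfold xx yy
  rw [pm_mul]
  apply pm_ext
  · intro b
    simp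
  · intro b hb
    simp only [Bool.and_eq_true, decide_eq_true_eq, Function.update_self] at hb
    funext i
    simp only [Function.comp_apply, Function.update_apply, id]
    by_cases h : i = j
    · subst h
      simp [hb.1]
    · simp [h]

theorem zmod2 (x : ZMod 2) : x = 0 ∨ x = 1 := by
  revert x
  decide

theorem zmod2_add (x y : ZMod 2) : x + 1 = y ↔ x = y + 1 := by
  revert x y
  decide

theorem zmod2_ne (x y : ZMod 2) (h : x ≠ y) : x = y + 1 := by
  revert x y
  decide

theorem xx_add_yy (j : ZMod (k + 1)) :
    xx k j + yy k j = pm (fun b => Function.update b j (b j + 1)) (fun _ => true) := by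
  ext a b
  rw [Matrix.add_apply]
  simp only [xx, yy, pm, Matrix.of_apply, decide_eq_true_eq, true_and]
  rcases zmod2 (b j) with h | h
  · rw [h]
    simp
  · rw [h]
    have : (1 : ZMod 2) + 1 = 0 := by decide
    simp [this]

theorem t_onto : S_ONTO := by
  intro k
  set A : Subalgebra (ZMod 2) (Mt k) :=
    Algebra.adjoin (ZMod 2) {xx k 0, yy k 0, sh k, sh' k} with hA
  have hx0 : xx k 0 ∈ A := Algebra.subset_adjoin (by simp)
  have hy0 : yy k 0 ∈ A := Algebra.subset_adjoin (by simp)
  have hs : sh k ∈ A := Algebra.subset_adjoin (by simp)
  have hs' : sh' k ∈ A := Algebra.subset_adjoin (by simp)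
  have hxn : ∀ n : ℕ, xx k (n : ZMod (k + 1)) ∈ A := by
    intro n
    induction n with
    | zero => simpa using hx0
    | succ n ih =>
      have := A.mul_mem (A.mul_mem hs ih) hs'
      rw [sh_xx] at this
      simpa using this
  have hyn : ∀ n : ℕ, yy k (n : ZMod (k + 1)) ∈ A := by
    intro n
    induction n with
    | zero => simpa using hy0
    | succ n ih =>
      have := A.mul_mem (A.mul_mem hs ih) hs'
      rw [sh_yy] at this
      simpa using this
  have hx : ∀ j, xx k j ∈ A := by
    intro j
    have := hxn j.val
    rwa [ZMod.natCast_zmod_val] at this
  have hy : ∀ j, yy k j ∈ A := by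
    intro j
    have := hyn j.val
    rwa [ZMod.natCast_zmod_val] at this
  have hd : ∀ (w : Om k) (T : Finset (ZMod (k + 1))),
      (pm id (fun b => decide (∀ j ∈ T, b j = w j)) : Mt k) ∈ A := by
    intro w T
    induction T using Finset.induction_on with
    | empty =>
      have h1 : (pm id (fun b => decide (∀ j ∈ (∅ : Finset (ZMod (k + 1))), b j = w j)) : Mt k)
          = 1 := by
        ext a b
        simp [pm, Matrix.one_apply]
      rw [h1]
      exact A.one_mem
    | insert j T hj ih =>
      have h1 : (pm id (fun b => decide (b j = w j)) : Mt k) ∈ A := by
        rcases zmod2 (w j) with h | h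
        · rw [h, ← xx_yy]
          exact A.mul_mem (hx j) (hy j)
        · rw [h, ← yy_xx]
          exact A.mul_mem (hy j) (hx j)
      have h2 := A.mul_mem h1 ih
      rw [pm_mul] at h2
      have h3 : (pm id (fun b => decide (∀ i ∈ insert j T, b i = w i)) : Mt k)
          = pm (id ∘ id) (fun b => decide (∀ j ∈ T, b j = w j) && decide (b (j) = w j)) := by
        apply pm_ext
        · intro b
          rw [← Bool.decide_and]
          congr 1
          rw [Finset.forall_mem_insert, and_comm]
        · intro b _
          rfl
      rw [h3]
      exact h2
  have hw : ∀ w : Om k, (pm (fun _ => w) (fun b => decide (b = w)) : Mt k) ∈ A := by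
    intro w
    have h1 := hd w Finset.univ
    have h2 : (pm (fun _ => w) (fun b => decide (b = w)) : Mt k)
        = pm id (fun b => decide (∀ j ∈ Finset.univ, b j = w j)) := by
      apply pm_ext
      · intro b
        congr 1
        simp [funext_iff]
      · intro b hb
        simp only [decide_eq_true_eq] at hb
        rw [hb]
        rfl
    rw [h2]
    exact h1
  have hv : ∀ (w : Om k) (T : Finset (ZMod (k + 1))) (v : Om k), (∀ j, j ∉ T → v j = w j) →
      (pm (fun _ => w) (fun b => decide (b = v)) : Mt k) ∈ A := by
    intro w T
    induction T using Finset.induction_on with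
    | empty =>
      intro v hv
      have : v = w := funext fun j => hv j (Finset.notMem_empty j)
      rw [this]
      exact hw w
    | insert j T hj ih =>
      intro v hv
      by_cases hvj : v j = w j
      · apply ih
        intro i hi
        by_cases hij : i = j
        · rw [hij]
          exact hvj
        · exact hv i (by simp [hij, hi])
      · have h1 : (pm (fun _ => w) (fun b => decide (b = Function.update v j (w j))) : Mt k) ∈ A := by
          apply ih
          intro i hi
          by_cases hij : i = j
          · subst hij
            simp
          · rw [Function.update_of_ne hij]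
            exact hv i (by simp [hij, hi])
        have h2 := A.mul_mem h1 (A.add_mem (hx j) (hy j))
        rw [xx_add_yy, pm_mul] at h2
        have h3 : (pm (fun _ => w) (fun b => decide (b = v)) : Mt k)
            = pm ((fun _ => w) ∘ fun b => Function.update b j (b j + 1))
              (fun b => true && decide (Function.update b j (b j + 1)
                = Function.update v j (w j))) := by
          apply pm_ext
          · intro b
            rw [Bool.true_and]
            congr 1
            rw [eq_iff_iff]
            constructor
            · rintro rfl
              have h4 := zmod2_ne _ _ hvj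
              rw [h4]
              congr 1
              have h5 : (1 : ZMod 2) + 1 = 0 := by decide
              rw [add_assoc, h5, add_zero]
            · intro h
              funext i
              have hi := congrFun h i
              by_cases hij : i = j
              · subst hij
                rw [Function.update_self, Function.update_self] at hi
                rw [zmod2_ne _ _ hvj]
                exact (zmod2_add _ _).1 hi
              · rwa [Function.update_of_ne hij, Function.update_of_ne hij] at hi
          · intro b _
            rfl
        rw [h3]
        exact h2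
  have hsingle : ∀ w v : Om k, (Matrix.single w v 1 : Mt k) ∈ A := by
    intro w v
    have h1 := hv w Finset.univ v (fun j hj => absurd (Finset.mem_univ j) hj)
    have h2 : (Matrix.single w v 1 : Mt k) = pm (fun _ => w) (fun b => decide (b = v)) := by
      ext a b
      simp only [pm, Matrix.of_apply, decide_eq_true_eq, Matrix.single_apply]
      by_cases ha : w = a <;> by_cases hb : v = b <;> simp [ha, hb, eq_comm]
    rw [h2]
    exact h1
  rw [eq_top_iff]
  intro M _
  rw [Matrix.matrix_eq_sum_single M]
  refine A.sum_mem fun i _ => A.sum_mem fun j _ => ?_
  have : (Matrix.single i j (M i j) : Mt k) = M i j • Matrix.single i j 1 := by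
    rw [Matrix.smul_single]
    simp
  rw [this]
  exact A.smul_mem (hsingle i j) _

end Pool.Agent.N618.FA

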